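import Pool.Agent.Lib.MP_de1a09_co.Main

set_option autoImplicit false

namespace Pool.Agent.Results.MP_de1a09_co.Approximate

/-- Approximate tree packing for arbitrary trees: for every `ε > 0` and all large `n`, any trees
`T_1, ..., T_t` with `T_i` having `i` edges and `t ≤ (1 - ε) n` pack into `K_n`. -/
theorem result :
    ∀ ε : ℝ, 0 < ε → ∃ n₀ : ℕ, ∀ n : ℕ, n₀ ≤ n → ∀ t : ℕ, (t : ℝ) ≤ (1 - ε) * n →
      ∀ T : (i : Fin t) → SimpleGraph (Fin ((i : ℕ) + 2)), (∀ i, (T i).IsTree) →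
      ∃ f : (i : Fin t) → (Fin ((i : ℕ) + 2) ↪ Fin n),
        ∀ i j, i ≠ j → Disjoint ((T i).map (f i)) ((T j).map (f j)) := by
  intro ε hε
  obtain ⟨p, hp⟩ := exists_nat_ge (7 / ε)
  obtain ⟨n0, h⟩ := Pool.Agent.Lib.MP_de1a09_co.pack_nat p
  refine ⟨n0, fun n hn t ht => h n hn t ?_⟩
  have h1 : 7 ≤ p * ε := (div_le_iff₀ hε).1 hp
  have h2 : (0 : ℝ) ≤ n := Nat.cast_nonneg n
  have h3 : (0 : ℝ) ≤ p := Nat.cast_nonneg p
  have h4 : (t : ℝ) * (p + 8) ≤ (p + 1) * n := by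
    have e1 := mul_le_mul_of_nonneg_right ht (show (0 : ℝ) ≤ p + 8 by positivity)
    have e2 : (1 - ε) * (p + 8) ≤ p + 1 := by nlinarith
    nlinarith [mul_le_mul_of_nonneg_right e2 h2]
  exact_mod_cast h4

end Pool.Agent.Results.MP_de1a09_co.Approximate
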